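import Pool.Agent.Helper90.SH.FSDefs

/-! MP_506470_co, module FSf: monotone traces. -/

namespace SetHom
namespace FS

variable {V : Type*} {G : SimpleGraph V} {K : List V → Prop}

/-- part of FSf: monotonicity in the parameter -/
theorem CoS.mono (h : GdL G K) {L M : ℕ} (hLM : L ≤ M) (hc : CoS G K M) : CoS G K L := by
  obtain ⟨a, x, b, v, ha, hb, hK, hx, h1, h2⟩ := hc
  refine ⟨a.drop (M - L), x, b.take L, v, ?_, ?_, ?_, hx, ?_, ?_⟩
  · rw [List.length_drop]; omega
  · rw [List.length_take]; omega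
  · refine h.sub _ _ hK ?_
    exact (List.drop_sublist _ _).append ((List.take_sublist _ _).cons_cons x)
  · intro y hy
    exact h1 y ((List.drop_sublist _ _).subset hy)
  · intro y hy
    exact h2 y ((List.take_sublist _ _).subset hy)

theorem Sg.mono (h : GdL G K) {L M : ℕ} (hLM : L ≤ M) (hc : Sg G K M) : Sg G K L := by
  obtain ⟨a, x, b, v, ha, hb, hK, hx, h1, h2⟩ := hc
  refine ⟨a.drop (M - L), x, b.take L, v, ?_, ?_, ?_, hx, ?_, ?_⟩
  · rw [List.length_drop]; omega
  · rw [List.length_take]; omega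
  · refine h.sub _ _ hK ?_
    exact (List.drop_sublist _ _).append ((List.take_sublist _ _).cons_cons x)
  · intro y hy
    exact h1 y ((List.drop_sublist _ _).subset hy)
  · intro y hy
    exact h2 y ((List.take_sublist _ _).subset hy)

/-- Pigeonhole for a list of length `2 L`. -/
theorem fsf_pigeon (P : V → Prop) (L : ℕ) (B : List V) (hB : B.length = 2 * L) :
    ∃ C : List V, C.Sublist B ∧ C.length = L ∧ ((∀ y ∈ C, P y) ∨ ∀ y ∈ C, ¬ P y) := by
  classical
  have h1 : (B.filter (fun y => decide (P y))).length +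
      (B.filter (fun y => !decide (P y))).length = B.length := by
    rw [List.length_eq_length_filter_add (l := B) (fun y => decide (P y))]
  rcases le_total L (B.filter (fun y => decide (P y))).length with h | h
  · refine ⟨(B.filter (fun y => decide (P y))).take L, ?_, ?_, Or.inl ?_⟩
    · exact (List.take_sublist _ _).trans List.filter_sublist
    · rw [List.length_take]; omega
    · intro y hy
      have h2 := (List.take_sublist _ _).subset hy
      simpa using (List.mem_filter.1 h2).2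
  · refine ⟨(B.filter (fun y => !decide (P y))).take L, ?_, ?_, Or.inr ?_⟩
    · exact (List.take_sublist _ _).trans List.filter_sublist
    · rw [List.length_take]; omega
    · intro y hy
      have h2 := (List.take_sublist _ _).subset hy
      simpa using (List.mem_filter.1 h2).2

/-- The combinatorial core: no subword `010` for the predicate `P`. -/
theorem fsf_core (h : GdL G K) {L : ℕ} (hL : 1 ≤ L) (P : V → Prop)
    (hiso : ∀ a x b, a.length = L → b.length = L → K (a ++ x :: b) → P x → (∀ y ∈ a, ¬ P y) →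
      (∀ y ∈ b, ¬ P y) → False)
    (hco : ∀ a x b, a.length = L → b.length = L → K (a ++ x :: b) → ¬ P x → (∀ y ∈ a, P y) →
      (∀ y ∈ b, P y) → False)
    {a b c : V} (hK : K [a, b, c]) (ha : ¬ P a) (hb : P b) (hc : ¬ P c) : False := by
  obtain ⟨B0, hB0, k0⟩ := h.ins (a := []) (b := [a, b, c]) (by simpa using hK) (2 * L)
  obtain ⟨B1, hB1, k1⟩ := h.ins (a := B0 ++ [a]) (b := [b, c]) (by simpa using k0) (2 * L)
  obtain ⟨B2, hB2, k2⟩ := h.ins (a := B0 ++ [a] ++ B1 ++ [b]) (b := [c]) (by simpa using k1) (2 * L)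
  obtain ⟨B3, hB3, k3⟩ := h.ins (a := B0 ++ [a] ++ B1 ++ [b] ++ B2 ++ [c]) (b := [])
    (by simpa using k2) (2 * L)
  obtain ⟨C0, s0, l0, c0⟩ := fsf_pigeon P L B0 hB0
  obtain ⟨C1, s1, l1, c1⟩ := fsf_pigeon P L B1 hB1
  obtain ⟨C2, s2, l2, c2⟩ := fsf_pigeon P L B2 hB2
  obtain ⟨C3, s3, l3, c3⟩ := fsf_pigeon P L B3 hB3
  have hW : K (C0 ++ a :: (C1 ++ b :: (C2 ++ c :: C3))) := by
    have k4 : K (B0 ++ a :: (B1 ++ b :: (B2 ++ c :: B3))) := by simpa using k3
    refine h.sub _ _ k4 ?_
    exact s0.append ((s1.append ((s2.append (s3.cons_cons c)).cons_cons b)).cons_cons a)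
  -- sublists
  have e1 : (C2 ++ c :: C3).Sublist (C1 ++ b :: (C2 ++ c :: C3)) :=
    (List.sublist_cons_self b _).trans (List.sublist_append_right C1 _)
  have e2 : (C1 ++ b :: (C2 ++ c :: C3)).Sublist (C0 ++ a :: (C1 ++ b :: (C2 ++ c :: C3))) :=
    (List.sublist_cons_self a _).trans (List.sublist_append_right C0 _)
  have e3 : C3.Sublist (C2 ++ c :: C3) :=
    (List.sublist_cons_self c _).trans (List.sublist_append_right C2 _)
  have e4 : C2.Sublist (C2 ++ c :: C3) := List.sublist_append_left _ _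
  have q2 : K (C2 ++ c :: C3) := h.sub _ _ hW (e1.trans e2)
  have q1 : K (C1 ++ b :: C2) :=
    h.sub _ _ hW (((List.Sublist.refl C1).append (e4.cons_cons b)).trans e2)
  have q0 : K (C0 ++ a :: C1) :=
    h.sub _ _ hW ((List.Sublist.refl C0).append ((List.sublist_append_left C1 _).cons_cons a))
  have r1 : ∀ s ∈ C2, K (C1 ++ s :: C3) := by
    intro s hs
    have : (s :: C3).Sublist (C2 ++ c :: C3) :=
      (List.singleton_sublist.2 hs).append (List.sublist_cons_self c C3)
    exact h.sub _ _ hW (((List.Sublist.refl C1).append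
      (this.trans (List.sublist_cons_self b _))).trans e2)
  have r2 : ∀ s ∈ C1, ∀ D : List V, D.Sublist (C2 ++ c :: C3) → K (C0 ++ s :: D) := by
    intro s hs D hD
    have : (s :: D).Sublist (C1 ++ b :: (C2 ++ c :: C3)) :=
      (List.singleton_sublist.2 hs).append (hD.trans (List.sublist_cons_self b _))
    exact h.sub _ _ hW ((List.Sublist.refl C0).append
      (this.trans (List.sublist_cons_self a _)))
  have n1 : ∃ s, s ∈ C1 := List.exists_mem_of_length_pos (by omega)
  have n2 : ∃ s, s ∈ C2 := List.exists_mem_of_length_pos (by omega)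
  obtain ⟨s1, hs1⟩ := n1
  obtain ⟨s2, hs2⟩ := n2
  rcases c1 with c1 | c1
  · rcases c0 with c0 | c0
    · exact hco _ _ _ l0 l1 q0 ha c0 c1
    · rcases c2 with c2 | c2
      · rcases c3 with c3 | c3
        · exact hco _ _ _ l2 l3 q2 hc c2 c3
        · exact hiso _ _ _ l0 l3 (r2 s1 hs1 _ e3) (c1 _ hs1) c0 c3
      · exact hiso _ _ _ l0 l2 (r2 s1 hs1 _ e4) (c1 _ hs1) c0 c2
  · rcases c2 with c2 | c2
    · rcases c3 with c3 | c3
      · exact hco _ _ _ l2 l3 q2 hc c2 c3
      · exact hiso _ _ _ l1 l3 (r1 s2 hs2) (c2 _ hs2) c1 c3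
    · exact hiso _ _ _ l1 l2 q1 hb c1 c2

/-- module FSf -/
theorem mono_of (h : GdL G K) {L : ℕ} (hc : ¬ CoS G K L) (hs : ¬ Sg G K L) : Mono G K := by
  have hc' : ¬ CoS G K (L + 1) := fun hh => hc (hh.mono h (Nat.le_succ L))
  have hs' : ¬ Sg G K (L + 1) := fun hh => hs (hh.mono h (Nat.le_succ L))
  intro a b c v hK
  constructor
  · rintro ⟨h1, h2, h3⟩
    refine fsf_core h (L := L + 1) (by omega) (fun y => ¬ G.Adj v y) ?_ ?_ hK
      (not_not_intro h1) h2 (not_not_intro h3)
    · intro a' x b' ha' hb' hk hx h4 h5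
      exact hc' ⟨a', x, b', v, ha', hb', hk, hx, fun y hy => not_not.1 (h4 y hy),
        fun y hy => not_not.1 (h5 y hy)⟩
    · intro a' x b' ha' hb' hk hx h4 h5
      exact hs' ⟨a', x, b', v, ha', hb', hk, not_not.1 hx, h4, h5⟩
  · rintro ⟨h1, h2, h3⟩
    refine fsf_core h (L := L + 1) (by omega) (fun y => G.Adj v y) ?_ ?_ hK h1 h2 h3
    · intro a' x b' ha' hb' hk hx h4 h5
      exact hs' ⟨a', x, b', v, ha', hb', hk, hx, h4, h5⟩
    · intro a' x b' ha' hb' hk hx h4 h5
      exact hc' ⟨a', x, b', v, ha', hb', hk, hx, h4, h5⟩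

end FS
end SetHom
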