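import Pool.Agent.Helper90.SH.FSDefs

/-! MP_506470_co, module FSl: option 2 is impossible. -/

namespace SetHom
namespace FS

variable {V : Type*} {G : SimpleGraph V} {K : List V → Prop}

/-- Two vertices with the trace `1100` on the same good list are not adjacent. -/
theorem fsl_b (hm : MC G K) (h2 : Opt2 G K) {x1 x2 x3 x4 u v : V} (hK : K [x1, x2, x3, x4])
    (u1 : G.Adj u x1) (u2 : G.Adj u x2) (u3 : ¬ G.Adj u x3) (u4 : ¬ G.Adj u x4)
    (v1 : G.Adj v x1) (v2 : G.Adj v x2) (v3 : ¬ G.Adj v x3) (v4 : ¬ G.Adj v x4) :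
    ¬ G.Adj u v := by
  intro huv
  obtain ⟨hrev, h2⟩ := h2
  have k1 : K [x3, x4, u] := h2 _ _ _ _ _ hK u1 u2 u3 u4
  have k1' : K [x3, x4, v] := h2 _ _ _ _ _ hK v1 v2 v3 v4
  obtain ⟨m, hm2, k2⟩ := hm.gl.ins (a := [x3, x4, u]) (b := []) (by simpa using k1) 2
  match m, hm2 with
  | [y1, y2], _ =>
    have k3 : K [x3, x4, u, y1, y2] := by simpa using k2
    have a1 : K [x4, u, y1] := hm.gl.sub _ _ k3 (by
      refine List.Sublist.cons _ ?_
      exact (List.sublist_append_left [x4, u, y1] [y2]))
    have a2 : K [x4, u, y2] := hm.gl.sub _ _ k3 (by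
      refine List.Sublist.cons _ ?_
      exact ((List.Sublist.refl [y2]).cons y1).cons_cons u |>.cons_cons x4)
    have b1 : G.Adj v y1 := by
      by_contra hn
      exact (hm.mono _ _ _ v a1).2 ⟨v4, huv.symm, hn⟩
    have b2 : G.Adj v y2 := by
      by_contra hn
      exact (hm.mono _ _ _ v a2).2 ⟨v4, huv.symm, hn⟩
    have k4 : K [y2, y1, u, x4, x3] := by simpa using hrev _ k3
    have k5 : K [y2, y1, x4, x3] := hm.gl.sub _ _ k4 (by
      exact (((List.Sublist.refl [x4, x3]).cons u).cons_cons y1).cons_cons y2)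
    have k6 : K [x4, x3, v] := h2 _ _ _ _ _ k5 b2 b1 v4 v3
    have hnd := hm.gl.nodup _ k1'
    have hperm : [x4, x3, v].Perm [x3, x4, v] := List.Perm.swap _ _ _
    simp only [List.nodup_cons, List.mem_cons, List.not_mem_nil, or_false, not_or,
      List.nodup_nil, and_true] at hnd
    rcases hm.uq _ _ k1' k6 hperm (by simp) with h | h
    · simp only [List.cons.injEq, and_true] at h
      exact hnd.1.1 h.2
    · simp only [List.reverse_cons, List.reverse_nil, List.nil_append, List.cons_append,
        List.cons.injEq, and_true] at h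
      exact hnd.2.1 h.1

/-- module FSl -/
theorem opt2_false (hm : MC G K) (h2 : Opt2 G K) (h3 : K3K1 G) : False := by
  classical
  obtain ⟨a, b, c, e, hab, hac, hbc, ea, eb, ec, nea, neb, nec⟩ := h3
  obtain ⟨l, hl, hmem⟩ := hm.gl.enum {a, e} (by
    intro x hx y hy
    simp only [Finset.mem_insert, Finset.mem_singleton] at hx hy
    rcases hx with rfl | rfl <;> rcases hy with rfl | rfl <;>
      first | exact G.irrefl | exact nea | exact fun h => nea h.symm)
  have hnd := hm.gl.nodup _ hl
  have hperm : l.Perm [a, e] := by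
    rw [List.perm_ext_iff_of_nodup hnd (by simp [ea.symm])]
    intro x
    rw [hmem]
    simp
  have hl2 : l.length = 2 := by simpa using hperm.length_eq
  obtain ⟨xs, ys, hxs, hys, hk⟩ := hm.gl.ext hl 1 1
  match l, hl2, xs, hxs, ys, hys with
  | [p, q], _, [x], _, [y], _ =>
    have hk4 : K [x, p, q, y] := by simpa using hk
    have s1 : K [x, p, q] := hm.gl.sub _ _ hk4 (List.sublist_append_left [x, p, q] [y])
    have s2 : K [p, q, y] := hm.gl.sub _ _ hk4 (List.sublist_cons_self _ _)
    have hp : p = a ∨ p = e := by simpa using (hmem p).1 (by simp)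
    have hq : q = a ∨ q = e := by simpa using (hmem q).1 (by simp)
    have hpq : p ≠ q := by simpa using hnd
    -- trace of `w` when `p = a`, `q = e`
    rcases hp with rfl | rfl <;> rcases hq with rfl | rfl
    · exact absurd rfl hpq
    · have key : ∀ w, G.Adj w p → ¬ G.Adj w q → G.Adj w x ∧ ¬ G.Adj w y := by
        intro w w1 w2
        constructor
        · by_contra hn
          exact (hm.mono _ _ _ w s1).2 ⟨hn, w1, w2⟩
        · intro hy
          exact (hm.mono _ _ _ w s2).1 ⟨w1, w2, hy⟩
      have kb := key b hab.symm (fun h => neb h.symm)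
      have kc := key c hac.symm (fun h => nec h.symm)
      exact fsl_b hm h2 hk4 kb.1 hab.symm (fun h => neb h.symm) kb.2
        kc.1 hac.symm (fun h => nec h.symm) kc.2 hbc
    · have key : ∀ w, ¬ G.Adj w p → G.Adj w q → ¬ G.Adj w x ∧ G.Adj w y := by
        intro w w1 w2
        constructor
        · intro hx
          exact (hm.mono _ _ _ w s1).1 ⟨hx, w1, w2⟩
        · by_contra hn
          exact (hm.mono _ _ _ w s2).2 ⟨w1, w2, hn⟩
      have kb := key b (fun h => neb h.symm) hab.symm
      have kc := key c (fun h => nec h.symm) hac.symm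
      have hk4' : K [y, q, p, x] := by simpa using h2.1 _ hk4
      exact fsl_b hm h2 hk4' kb.2 hab.symm (fun h => neb h.symm) kb.1
        kc.2 hac.symm (fun h => nec h.symm) kc.1 hbc
    · exact absurd rfl hpq

end FS
end SetHom
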